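import Pool.Agent.Q93.KS.KS6

set_option autoImplicit false

open scoped ENNReal

/-!
Lower bound for the Kolmogorov numbers of the embeddings `S_p^N → S_q^N`, `0 < q ≤ p ≤ ∞`, of
Schatten classes of `N × N` matrices, for all orders `n`.
-/

namespace Pool.Agent.Results.MP_ddfcce_an.SchattenKolmogorov

noncomputable section

variable {𝕜 : Type*} [RCLike 𝕜]

/-- The singular values of an `N × N` matrix `A`: the square roots of the eigenvalues of the
Hermitian matrix `A* A`, counted with multiplicity. -/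
def sing {N : ℕ} (A : Matrix (Fin N) (Fin N) 𝕜) (j : Fin N) : ℝ :=
  √((Matrix.isHermitian_conjTranspose_mul_self A).eigenvalues j)

/-- The Schatten (quasi-)norm `‖A‖_{S_p} = (∑ s_j(A)^p)^{1/p}`, `0 < p < ∞`, of an `N × N` matrix;
for `p = ∞` the largest singular value, i.e. the operator norm. -/
def schatten (p : ℝ≥0∞) {N : ℕ} (A : Matrix (Fin N) (Fin N) 𝕜) : ℝ :=
  if p = ∞ then ⨆ j, sing A j else (∑ j, sing A j ^ p.toReal) ^ (1 / p.toReal)

/-- The distance of the matrix `A` to the set `L` in `S_q^N`. -/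
def dist (q : ℝ≥0∞) {N : ℕ} (A : Matrix (Fin N) (Fin N) 𝕜) (L : Set (Matrix (Fin N) (Fin N) 𝕜)) :
    ℝ≥0∞ :=
  ⨅ B ∈ L, ENNReal.ofReal (schatten q (A - B))

/-- The supremum over the unit ball of `S_p^N` of the distance to the set `L` in `S_q^N`. -/
def width (p q : ℝ≥0∞) {N : ℕ} (L : Set (Matrix (Fin N) (Fin N) 𝕜)) : ℝ≥0∞ :=
  ⨆ (A : Matrix (Fin N) (Fin N) 𝕜) (_ : schatten p A ≤ 1), dist q A L

/-- The Kolmogorov number `d_n(S_p^N → S_q^N)`: the infimum over the linear subspaces `L` of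
dimension `< n` of the supremum over the unit ball of `S_p^N` of the distance to `L` in `S_q^N`. -/
def kolmogorov (𝕜 : Type*) [RCLike 𝕜] (p q : ℝ≥0∞) (N n : ℕ) : ℝ≥0∞ :=
  ⨅ (L : Submodule 𝕜 (Matrix (Fin N) (Fin N) 𝕜)) (_ : Module.finrank 𝕜 L < n),
    width p q (L : Set (Matrix (Fin N) (Fin N) 𝕜))

/-- The number `max {1, (N ^ 2 - n + 1) / N} ^ (1 / q - 1 / p)`. -/
def rate (p q : ℝ≥0∞) (N n : ℕ) : ℝ :=
  (max 1 (((N : ℝ) ^ 2 - n + 1) / N)) ^ (q⁻¹.toReal - p⁻¹.toReal)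

open Pool.Agent.Q93.KS

lemma eigenvalues_congr {E : Type*} [NormedAddCommGroup E] [InnerProductSpace 𝕜 E]
    [FiniteDimensional 𝕜 E] {S₁ S₂ : E →ₗ[𝕜] E} (h : S₁ = S₂) (h₁ : S₁.IsSymmetric)
    (h₂ : S₂.IsSymmetric) {n : ℕ} (hn : Module.finrank 𝕜 E = n) (i : Fin n) :
    h₁.eigenvalues hn i = h₂.eigenvalues hn i := by
  subst h
  rfl

/-- The singular values are those of the operator of the Euclidean space. -/
lemma sing_eq {N : ℕ} (A : Matrix (Fin N) (Fin N) 𝕜) (j : Fin N) :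
    sing A j = sv (Matrix.toEuclideanCLM (𝕜 := 𝕜) A)
      ((Fintype.equivOfCardEq (Fintype.card_fin (Fintype.card (Fin N)))).symm j :
        Fin (Fintype.card (Fin N))) := by
  set k := (Fintype.equivOfCardEq (Fintype.card_fin (Fintype.card (Fin N)))).symm j
  have h1 : (Matrix.isHermitian_conjTranspose_mul_self A).eigenvalues j =
      sv (Matrix.toEuclideanCLM (𝕜 := 𝕜) A) k ^ 2 := by
    rw [sv, LinearMap.sq_singularValues_fin _
      (finrank_euclideanSpace : Module.finrank 𝕜 (EuclideanSpace 𝕜 (Fin N)) = _) k]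
    refine eigenvalues_congr ?_ _ _ _ _
    rw [Matrix.coe_toEuclideanCLM_eq_toEuclideanLin, ← Matrix.toEuclideanLin_conjTranspose_eq_adjoint]
    ext x
    simp
  rw [sing, h1, Real.sqrt_sq (sv_nonneg _ _)]

lemma schatten_eq (p : ℝ≥0∞) {N : ℕ} (A : Matrix (Fin N) (Fin N) 𝕜) :
    schatten p A = S p (Matrix.toEuclideanCLM (𝕜 := 𝕜) A) := by
  set e := Fintype.equivOfCardEq (Fintype.card_fin (Fintype.card (Fin N))) with he
  unfold schatten S
  split_ifs with hp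
  · rcases Nat.eq_zero_or_pos N with h0 | h0
    · subst h0
      rw [Real.iSup_of_isEmpty, ← sv_zero, sv_zero_of_le]
      simp
    · rw [← sv_zero]
      have : Nonempty (Fin N) := ⟨⟨0, h0⟩⟩
      have hc : 0 < Fintype.card (Fin N) := by simpa using h0
      refine le_antisymm (ciSup_le fun j => ?_) ?_
      · rw [sing_eq]
        exact sv_anti _ (Nat.zero_le _)
      · refine le_ciSup_of_le (Set.finite_range _).bddAbove (e ⟨0, hc⟩) (le_of_eq ?_)
        rw [sing_eq, ← he, Equiv.symm_apply_apply]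
  · congr 1
    have h1 : ∑ j : Fin N, sing A j ^ p.toReal =
        ∑ k : Fin (Fintype.card (Fin N)), sv (Matrix.toEuclideanCLM (𝕜 := 𝕜) A) k ^ p.toReal := by
      rw [← Equiv.sum_comp e]
      refine Finset.sum_congr rfl fun k _ => ?_
      rw [sing_eq, ← he, Equiv.symm_apply_apply]
    rw [h1, ← Finset.sum_range (fun k => sv (Matrix.toEuclideanCLM (𝕜 := 𝕜) A) k ^ p.toReal),
      Fintype.card_fin]

/-- **Kolmogorov numbers of Schatten embeddings.**  Let `𝕜` be `ℝ` or `ℂ` and `0 < q ≤ p ≤ ∞`.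
There is `c > 0`, depending on `p` and `q` only (and on `𝕜`), such that for all `N` and all
`1 ≤ n ≤ N ^ 2`,
`d_n(S_p^N → S_q^N) ≥ c * max {1, (N ^ 2 - n + 1) / N} ^ (1 / q - 1 / p)`.
The case `q ≤ 1` answers the question affirmatively. -/
theorem result (𝕜 : Type*) [RCLike 𝕜] (p q : ℝ≥0∞) (hq : 0 < q) (hqp : q ≤ p) :
    ∃ c : ℝ, 0 < c ∧ ∀ N n : ℕ, 1 ≤ n → n ≤ N ^ 2 →
      ENNReal.ofReal (c * rate p q N n) ≤ kolmogorov 𝕜 p q N n := by
  obtain ⟨c, hc, h⟩ := lower 𝕜 hq hqp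
  refine ⟨c, hc, fun N n hn1 hn2 => ?_⟩
  refine le_iInf₂ fun L hL => ?_
  by_contra hcon
  push Not at hcon
  obtain ⟨t', ht1, ht2⟩ := exists_between hcon
  have htop : t' ≠ ∞ := ne_top_of_lt ht2
  have ht0 : 0 < t'.toReal := ENNReal.toReal_pos (ne_bot_of_gt ht1) htop
  let e : Matrix (Fin N) (Fin N) 𝕜 ≃ₗ[𝕜] Op 𝕜 N :=
    (Matrix.toEuclideanCLM (n := Fin N) (𝕜 := 𝕜)).toAlgEquiv.toLinearEquiv
  have he : ∀ A, e A = Matrix.toEuclideanCLM (𝕜 := 𝕜) A := fun A => rfl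
  have hdim : Module.finrank 𝕜 (L.map e.toLinearMap) = Module.finrank 𝕜 L :=
    LinearEquiv.finrank_map_eq e L
  have h1 := h N (N ^ 2 - n + 1) (L.map e.toLinearMap) (by omega) (by rw [hdim]; omega) t'.toReal ht0
    (fun T hT => by
      have h2 : (⨅ B ∈ L, ENNReal.ofReal (schatten q (e.symm T - B))) < t' := by
        refine lt_of_le_of_lt ?_ ht1
        refine le_iSup₂ (f := fun (A : Matrix (Fin N) (Fin N) 𝕜) (_ : schatten p A ≤ 1) =>
          dist q A (L : Set (Matrix (Fin N) (Fin N) 𝕜))) (e.symm T) ?_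
        rw [schatten_eq, ← he, e.apply_symm_apply]
        exact hT
      obtain ⟨B, hB⟩ := iInf_lt_iff.1 h2
      obtain ⟨hBL, hB2⟩ := iInf_lt_iff.1 hB
      refine ⟨e B, Submodule.mem_map_of_mem hBL, ?_⟩
      rw [schatten_eq, ← he, map_sub, e.apply_symm_apply] at hB2
      rwa [← ENNReal.ofReal_toReal htop, ENNReal.ofReal_lt_ofReal_iff ht0] at hB2)
  have h3 : (((N ^ 2 - n + 1 : ℕ) : ℝ)) = (N : ℝ) ^ 2 - n + 1 := by
    push_cast [Nat.cast_sub hn2]
    ring
  rw [h3] at h1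
  have h4 := ENNReal.ofReal_le_ofReal h1
  rw [ENNReal.ofReal_toReal htop] at h4
  exact absurd ht2 (not_lt.2 h4)

end

end Pool.Agent.Results.MP_ddfcce_an.SchattenKolmogorov
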